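import Pool.Agent.R342.SC.Part

/-! # Counting tuples of points -/

namespace Pool.Agent.R342.SC

open Finset

variable {V : Type} [Fintype V] [DecidableEq V] {r N : ℕ}

omit [DecidableEq V] in
theorem sum_cls {ι : Type} [Fintype ι] [DecidableEq ι] (κ : V → ι) (c : ι → ℝ) :
    ∑ P, c P * ((cls κ P).card : ℝ) = ∑ x, c (κ x) := by
  rw [← Finset.sum_fiberwise (s := univ) (g := κ)]
  refine sum_congr rfl fun P _ => ?_
  rw [sum_congr rfl (fun x hx => by rw [(mem_filter.1 hx).2] : ∀ x ∈ univ.filter fun x => κ x = P,
    c (κ x) = c P), sum_const, nsmul_eq_mul, mul_comm]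
  rfl

omit [DecidableEq V] in
theorem sum_cls_card {ι : Type} [Fintype ι] [DecidableEq ι] (κ : V → ι) :
    ∑ P, (cls κ P).card = Fintype.card V := by
  have := sum_cls κ (fun _ => (1 : ℝ))
  simp only [one_mul, sum_const, card_univ, nsmul_eq_mul, mul_one] at this
  exact_mod_cast this

theorem card_one (l : Fin r) (A : Finset V) :
    (univ.filter fun v : Fin r → V => v l ∈ A).card = A.card * Fintype.card V ^ (r - 1) := by
  have h1 : (univ.filter fun v : Fin r → V => v l ∈ A) =
      Fintype.piFinset (Function.update (fun _ => univ) l A) := by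
    ext v
    simp only [mem_filter, mem_univ, true_and, Fintype.mem_piFinset]
    constructor
    · intro h i
      by_cases hi : i = l
      · subst hi; simpa using h
      · simp [Function.update_of_ne hi]
    · intro h
      simpa using h l
  rw [h1, Fintype.card_piFinset]
  have h2 : ∀ i, (Function.update (fun _ => (univ : Finset V)) l A i).card =
      Function.update (fun _ => Fintype.card V) l A.card i := by
    intro i
    by_cases hi : i = l
    · subst hi; simp
    · simp [Function.update_of_ne hi]
  simp only [h2]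
  rw [prod_update_of_mem (mem_univ l), prod_const, card_sdiff, inter_univ, card_singleton,
    card_univ, Fintype.card_fin]

theorem card_two {a b : Fin r} (hab : a ≠ b) (A : Finset V) :
    (univ.filter fun v : Fin r → V => v a ∈ A ∧ v b ∈ A).card =
      A.card * (A.card * Fintype.card V ^ (r - 2)) := by
  have h1 : (univ.filter fun v : Fin r → V => v a ∈ A ∧ v b ∈ A) =
      Fintype.piFinset (Function.update (Function.update (fun _ => univ) b A) a A) := by
    ext v
    simp only [mem_filter, mem_univ, true_and, Fintype.mem_piFinset]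
    constructor
    · intro h i
      by_cases hi : i = a
      · subst hi; simpa using h.1
      · rw [Function.update_of_ne hi]
        by_cases hi' : i = b
        · subst hi'; simpa using h.2
        · simp [Function.update_of_ne hi']
    · intro h
      refine ⟨by simpa using h a, ?_⟩
      have := h b
      rw [Function.update_of_ne hab.symm] at this
      simpa using this
  rw [h1, Fintype.card_piFinset]
  have h2 : ∀ i, (Function.update (Function.update (fun _ => (univ : Finset V)) b A) a A i).card =
      Function.update (Function.update (fun _ => Fintype.card V) b A.card) a A.card i := by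
    intro i
    by_cases hi : i = a
    · subst hi; simp
    · rw [Function.update_of_ne hi, Function.update_of_ne hi]
      by_cases hi' : i = b
      · subst hi'; simp
      · simp [Function.update_of_ne hi']
  simp only [h2]
  rw [prod_update_of_mem (mem_univ a), prod_update_of_mem (by simp [hab.symm]), prod_const]
  congr 3
  rw [card_sdiff, card_sdiff]
  simp [hab.symm]
  omega

theorem card_nonInj (κ : V → Fin N) (B : ℕ) (hB : ∀ P, (cls κ P).card ≤ B) (hr : 2 ≤ r) :
    (univ.filter fun v : Fin r → V => ¬ Function.Injective (κ ∘ v)).card ≤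
      r * r * (B * Fintype.card V ^ (r - 1)) := by
  have hsub : (univ.filter fun v : Fin r → V => ¬ Function.Injective (κ ∘ v)) ⊆
      (univ.filter fun p : Fin r × Fin r => p.1 ≠ p.2).biUnion fun p =>
        univ.biUnion fun P => univ.filter fun v : Fin r → V => v p.1 ∈ cls κ P ∧ v p.2 ∈ cls κ P := by
    intro v hv
    have h1 := (mem_filter.1 hv).2
    unfold Function.Injective at h1
    push Not at h1
    obtain ⟨a, b, hab, hne⟩ := h1
    rw [mem_biUnion]
    refine ⟨(a, b), by simp [hne], ?_⟩
    rw [mem_biUnion]
    refine ⟨κ (v a), mem_univ _, ?_⟩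
    simp only [mem_filter, mem_univ, true_and, mem_cls]
    exact hab.symm
  refine (card_le_card hsub).trans (card_biUnion_le.trans ?_)
  have h2 : ∀ p ∈ (univ.filter fun p : Fin r × Fin r => p.1 ≠ p.2),
      (univ.biUnion fun P => univ.filter fun v : Fin r → V => v p.1 ∈ cls κ P ∧ v p.2 ∈ cls κ P).card
        ≤ B * Fintype.card V ^ (r - 1) := by
    intro p hp
    refine card_biUnion_le.trans ?_
    have h3 : ∀ P ∈ (univ : Finset (Fin N)),
        (univ.filter fun v : Fin r → V => v p.1 ∈ cls κ P ∧ v p.2 ∈ cls κ P).card ≤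
          B * ((cls κ P).card * Fintype.card V ^ (r - 2)) := by
      intro P _
      rw [card_two (mem_filter.1 hp).2]
      exact Nat.mul_le_mul_right _ (hB P)
    refine (sum_le_sum h3).trans (le_of_eq ?_)
    rw [← mul_sum, ← sum_mul, sum_cls_card]
    congr 1
    rw [← pow_succ']
    congr 1
    omega
  refine (sum_le_card_nsmul _ _ _ h2).trans ?_
  rw [smul_eq_mul]
  refine Nat.mul_le_mul_right _ ?_
  refine (card_le_univ _).trans (le_of_eq ?_)
  rw [Fintype.card_prod, Fintype.card_fin]

theorem card_small (κ : V → Fin N) (s : ℕ) :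
    (univ.filter fun v : Fin r → V => ∃ l, (cls κ (κ (v l))).card < s).card ≤
      r * (N * s * Fintype.card V ^ (r - 1)) := by
  let Sm : Finset V := univ.filter fun x => (cls κ (κ x)).card < s
  have hSm : Sm.card ≤ N * s := by
    have h1 : Sm ⊆ (univ.filter fun P => (cls κ P).card < s).biUnion fun P => cls κ P := by
      intro x hx
      rw [mem_biUnion]
      exact ⟨κ x, by simpa using (mem_filter.1 hx).2, mem_cls.2 rfl⟩
    refine (card_le_card h1).trans (card_biUnion_le.trans ?_)
    refine (sum_le_card_nsmul _ _ s fun P hP => (mem_filter.1 hP).2.le).trans ?_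
    rw [smul_eq_mul]
    refine Nat.mul_le_mul_right _ ((card_le_univ _).trans (le_of_eq (Fintype.card_fin N)))
  have hsub : (univ.filter fun v : Fin r → V => ∃ l, (cls κ (κ (v l))).card < s) ⊆
      univ.biUnion fun l => univ.filter fun v : Fin r → V => v l ∈ Sm := by
    intro v hv
    obtain ⟨l, hl⟩ := (mem_filter.1 hv).2
    rw [mem_biUnion]
    exact ⟨l, mem_univ _, by simpa [Sm] using hl⟩
  refine (card_le_card hsub).trans (card_biUnion_le.trans ?_)
  refine (sum_le_card_nsmul _ _ (N * s * Fintype.card V ^ (r - 1)) fun l _ => ?_).trans ?_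
  · rw [card_one]
    exact Nat.mul_le_mul_right _ hSm
  · rw [smul_eq_mul, card_univ, Fintype.card_fin]

omit [DecidableEq V] in
theorem exists_equi (m : ℕ) (hm : 0 < m) : ∃ κ0 : V → Fin m,
    ∀ P, (cls κ0 P).card ≤ Fintype.card V / m + 1 := by
  classical
  let e := Fintype.equivFin V
  refine ⟨fun x => ⟨(e x : ℕ) % m, Nat.mod_lt _ hm⟩, fun P => ?_⟩
  have h1 : (cls (fun x => (⟨(e x : ℕ) % m, Nat.mod_lt _ hm⟩ : Fin m)) P).card ≤
      (range (Fintype.card V / m + 1)).card := by
    refine card_le_card_of_injOn (fun x => (e x : ℕ) / m) ?_ ?_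
    · intro x _
      simp only [coe_range, Set.mem_Iio]
      have := (e x).2
      exact Nat.lt_succ_of_le (Nat.div_le_div_right this.le)
    · intro x hx y hy hxy
      simp only [cls, coe_filter, mem_univ, true_and, Set.mem_ofPred_eq] at hx hy
      have h2 : (e x : ℕ) % m = (e y : ℕ) % m := by
        have := hx.trans hy.symm
        exact congrArg Fin.val this
      have h3 : (e x : ℕ) / m = (e y : ℕ) / m := hxy
      have h4 : (e x : ℕ) = e y := by
        rw [← Nat.div_add_mod (e x : ℕ) m, h2, h3, Nat.div_add_mod]
      exact e.injective (Fin.ext h4)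
  simpa using h1

omit [DecidableEq V] in
theorem cls_refine {N m : ℕ} {κ : V → Fin N} {κ0 : V → Fin m}
    (h : ∀ x y, κ x = κ y → κ0 x = κ0 y) {B : ℕ} (hB : ∀ P, (cls κ0 P).card ≤ B) (P : Fin N) :
    (cls κ P).card ≤ B := by
  by_cases hP : (cls κ P).Nonempty
  · obtain ⟨x, hx⟩ := hP
    refine (card_le_card fun y hy => ?_).trans (hB (κ0 x))
    rw [mem_cls] at hx hy ⊢
    exact h y x (hy.trans hx.symm)
  · rw [not_nonempty_iff_eq_empty] at hP
    rw [hP]; simp

end Pool.Agent.R342.SC
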