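import Pool.Agent.R342.SC.Stm

/-! # The duality lemma `StmD` -/

namespace Pool.Agent.R342.SC

open Finset

theorem dual : StmD := by
  intro ι _ _ r _hr F hinj cap hcap τ hτ hw
  let chi : (Fin r → ι) → ι → ℝ := fun f P => if (∃ l, f l = P) then 1 else 0
  let L : (↥F → ℝ) →ₗ[ℝ] (ι → ℝ) := Fintype.linearCombination ℝ (fun f : ↥F => τ • chi f.1)
  have hLP : ∀ w P, L w P = ∑ f : ↥F, w f * (τ * chi f.1 P) := by
    intro w P
    simp only [L, Fintype.linearCombination_apply, Finset.sum_apply, Pi.smul_apply, smul_eq_mul]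
  have hLc : Continuous L := L.continuous_of_finiteDimensional
  let K : Set (ι → ℝ) := L '' (stdSimplex ℝ ↥F)
  have hKc : Convex ℝ K := (convex_stdSimplex ℝ ↥F).linear_image L
  have hKk : IsCompact K := (isCompact_stdSimplex ℝ ↥F).image hLc
  let T : Set (ι → ℝ) := Set.Iic cap
  have hTc : Convex ℝ T := convex_Iic cap
  have hTk : IsClosed T := isClosed_Iic
  have hdisj : Disjoint T K := by
    rw [Set.disjoint_left]
    rintro z hzT ⟨w, hwS, rfl⟩
    let W : (Fin r → ι) → ℝ := fun f => if h : f ∈ F then τ * w ⟨f, h⟩ else 0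
    have hWF : ∀ f : ↥F, W f.1 = τ * w f := by
      intro f
      simp only [W, dif_pos f.2]
    have h1 : ∑ f ∈ F, W f = τ := by
      rw [← Finset.sum_coe_sort]
      simp only [hWF]
      rw [← Finset.mul_sum, hwS.2, mul_one]
    have h2 := hw W (by
      intro f
      simp only [W]
      split_ifs with h
      · exact mul_nonneg hτ.le (hwS.1 _)
      · exact le_rfl) (by
      intro P
      refine le_trans (le_of_eq ?_) (hzT P)
      rw [hLP, Finset.sum_filter, ← Finset.sum_coe_sort]
      refine Finset.sum_congr rfl fun f _ => ?_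
      rw [hWF]
      simp only [chi]
      split_ifs <;> ring)
    linarith
  obtain ⟨g, u, v, hgT, huv, hgK⟩ := geometric_hahn_banach_closed_compact hTc hTk hKc hKk hdisj
  let c0 : ι → ℝ := fun P => g (Pi.single P 1)
  have hg : ∀ z : ι → ℝ, g z = ∑ P, z P * c0 P := by
    intro z
    have h1 : z = ∑ P, z P • (Pi.single P (1:ℝ) : ι → ℝ) := by
      funext Q
      simp [Finset.sum_apply, Pi.single_apply]
    conv_lhs => rw [h1]
    rw [map_sum]
    simp only [map_smul, smul_eq_mul, c0]
  have hgcap : g cap < u := hgT cap (Set.mem_Iic.2 le_rfl)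
  have hc0 : ∀ P, 0 ≤ c0 P := by
    intro P
    by_contra hneg
    push Not at hneg
    have ht : 0 < (u - g cap) / (-c0 P) := div_pos (by linarith) (by linarith)
    have h1 := hgT (cap - ((u - g cap) / (-c0 P)) • (Pi.single P (1:ℝ) : ι → ℝ)) (by
      intro Q
      simp only [Pi.sub_apply, Pi.smul_apply, smul_eq_mul, Pi.single_apply]
      split_ifs
      · linarith
      · linarith)
    rw [map_sub, map_smul, smul_eq_mul] at h1
    have h2 : (u - g cap) / (-c0 P) * g (Pi.single P (1:ℝ)) = -(u - g cap) := by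
      change (u - g cap) / (-c0 P) * c0 P = -(u - g cap)
      have : c0 P ≠ 0 := hneg.ne
      field_simp
    rw [h2] at h1
    linarith
  have hgcap0 : 0 ≤ g cap := by
    rw [hg]
    exact Finset.sum_nonneg fun P _ => mul_nonneg (hcap P) (hc0 P)
  have hu : 0 < u := lt_of_le_of_lt hgcap0 hgcap
  have hF : ∀ f ∈ F, u < τ * ∑ l, c0 (f l) := by
    intro f hf
    have h1 := hgK (L (Pi.single ⟨f, hf⟩ 1)) ⟨_, single_mem_stdSimplex ℝ _, rfl⟩
    have h2 : g (L (Pi.single ⟨f, hf⟩ 1)) = τ * ∑ l, c0 (f l) := by
      rw [hg]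
      have h3 : ∀ P, L (Pi.single ⟨f, hf⟩ 1) P = τ * chi f P := by
        intro P
        rw [hLP, Finset.sum_eq_single (⟨f, hf⟩ : ↥F)]
        · simp
        · intro f' _ hne
          simp [hne]
        · intro h
          exact absurd (mem_univ _) h
      simp only [h3]
      have h4 : ∑ P, chi f P * c0 P = ∑ l, c0 (f l) := by
        have h5 : ∑ l, c0 (f l) = ∑ P ∈ univ.image f, c0 P := by
          rw [Finset.sum_image (fun a _ b _ h => hinj f hf h)]
        rw [h5, ← Finset.sum_filter_add_sum_filter_not univ (fun P => ∃ l, f l = P)]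
        have h6 : ∑ P with ¬ (∃ l, f l = P), chi f P * c0 P = 0 := by
          refine Finset.sum_eq_zero fun P hP => ?_
          simp only [mem_filter, mem_univ, true_and] at hP
          simp only [chi, if_neg hP, zero_mul]
        rw [h6, add_zero]
        refine Finset.sum_congr ?_ fun P hP => ?_
        · ext P
          simp
        · simp only [mem_image, mem_univ, true_and] at hP
          simp only [chi, if_pos hP, one_mul]
      rw [← h4, Finset.mul_sum]
      refine Finset.sum_congr rfl fun P _ => ?_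
      ring
    linarith
  have hk : 0 < τ / u := div_pos hτ hu
  refine ⟨fun P => min 1 (τ / u * c0 P), fun P => le_min zero_le_one
    (mul_nonneg hk.le (hc0 P)), fun P => min_le_left _ _, ?_, ?_⟩
  · intro f hf
    by_cases hex : ∃ l, 1 ≤ τ / u * c0 (f l)
    · obtain ⟨l, hl⟩ := hex
      have h1 : min 1 (τ / u * c0 (f l)) = 1 := min_eq_left hl
      have h2 := Finset.single_le_sum (f := fun l => min 1 (τ / u * c0 (f l)))
        (fun l _ => le_min zero_le_one (mul_nonneg hk.le (hc0 _))) (mem_univ l)
      simp only [h1] at h2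
      exact h2
    · push Not at hex
      have h1 : ∑ l, min 1 (τ / u * c0 (f l)) = τ / u * ∑ l, c0 (f l) := by
        rw [Finset.mul_sum]
        exact Finset.sum_congr rfl fun l _ => min_eq_right (hex l).le
      rw [h1]
      have h2 := hF f hf
      rw [div_mul_eq_mul_div, le_div_iff₀ hu]
      linarith
  · have h1 : ∑ P, min 1 (τ / u * c0 P) * cap P ≤ τ / u * g cap := by
      rw [hg, Finset.mul_sum]
      refine Finset.sum_le_sum fun P _ => ?_
      calc min 1 (τ / u * c0 P) * cap P ≤ (τ / u * c0 P) * cap P :=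
            mul_le_mul_of_nonneg_right (min_le_right _ _) (hcap P)
        _ = τ / u * (cap P * c0 P) := by ring
    refine h1.trans ?_
    rw [div_mul_eq_mul_div, div_le_iff₀ hu]
    exact mul_le_mul_of_nonneg_left hgcap.le hτ.le

end Pool.Agent.R342.SC
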