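import Pool.Agent.R342.SC.Stm

/-! # SCN-G: greedy realisation of a fractional matching of robust tuples -/

namespace Pool.Agent.R342.SC

open Finset

/-- **SCN-G** (greedy). -/
theorem greedy : StmG := by
  intro V ι _ _ _ _ r hr κ E δ hδ F hFinj hrob w hw hcap
  classical
  let Good : Finset (Fin r → V) → Prop := fun M =>
    (∀ v ∈ M, (κ ∘ v) ∈ F ∧ E v) ∧
      (∀ v ∈ M, ∀ v' ∈ M, v ≠ v' → ∀ l l', v l ≠ v' l') ∧
      ∀ f ∈ F, ((M.filter (fun v => κ ∘ v = f)).card : ℝ) ≤ w f
  have hempty : Good ∅ := by
    refine ⟨by simp, by simp, ?_⟩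
    intro f _
    simpa using hw f
  obtain ⟨M, hM, hmax⟩ := Finset.exists_max_image (univ.filter Good) (fun M => M.card)
    ⟨∅, by simp [hempty]⟩
  rw [mem_filter] at hM
  obtain ⟨-, hM1, hM2, hM3⟩ := hM
  have hmax' : ∀ M', Good M' → M'.card ≤ M.card := fun M' h => hmax M' (by simp [h])
  let m : (Fin r → ι) → ℕ := fun f => (M.filter (fun v => κ ∘ v = f)).card
  let U : Finset V := M.biUnion (fun v => univ.image v)
  have hU : ∀ x, x ∈ U ↔ ∃ v ∈ M, ∃ l, v l = x := by
    intro x
    simp [U]
  let exh : Finset ι := univ.filter (fun P =>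
    ((cls κ P \ U).card : ℝ) < δ * ((cls κ P).card : ℝ))
  have hcls : ∀ P x, x ∈ cls κ P ↔ κ x = P := by
    intro P x
    simp [cls]
  -- a deficit tuple contains an exhausted label
  have hdef : ∀ f ∈ F, (m f : ℝ) + 1 ≤ w f → ∃ l, f l ∈ exh := by
    intro f hf hlt
    by_contra hcon
    push Not at hcon
    have h1 : ∀ l, δ * ((cls κ (f l)).card : ℝ) ≤ ((cls κ (f l) \ U).card : ℝ) := by
      intro l
      have := hcon l
      simp only [exh, mem_filter, mem_univ, true_and, not_lt] at this
      exact this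
    obtain ⟨v, hv, hEv⟩ := hrob f hf (fun l => cls κ (f l) \ U) (fun l => sdiff_subset) h1
    have hvU : ∀ l, v l ∉ U := fun l => (mem_sdiff.mp (hv l)).2
    have hκv : κ ∘ v = f := by
      funext l
      exact (hcls _ _).mp (mem_sdiff.mp (hv l)).1
    have hvM : v ∉ M := by
      intro h
      exact hvU ⟨0, hr⟩ ((hU _).mpr ⟨v, h, ⟨0, hr⟩, rfl⟩)
    have hgood : Good (insert v M) := by
      refine ⟨?_, ?_, ?_⟩
      · intro v' hv'
        rw [mem_insert] at hv'
        rcases hv' with rfl | hv'
        · exact ⟨by rw [hκv]; exact hf, hEv⟩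
        · exact hM1 v' hv'
      · intro v1 h1 v2 h2 hne l l' he
        rw [mem_insert] at h1 h2
        rcases h1 with rfl | h1
        · rcases h2 with rfl | h2
          · exact hne rfl
          · exact hvU l ((hU _).mpr ⟨v2, h2, l', he.symm⟩)
        · rcases h2 with rfl | h2
          · exact hvU l' ((hU _).mpr ⟨v1, h1, l, he⟩)
          · exact hM2 v1 h1 v2 h2 hne l l' he
      · intro f' hf'
        rw [filter_insert]
        split_ifs with hc
        · have hff : f' = f := by rw [← hc, hκv]
          subst hff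
          rw [card_insert_of_notMem (fun h => hvM (mem_filter.mp h).1)]
          push_cast
          exact hlt
        · exact hM3 f' hf'
    have := hmax' _ hgood
    rw [card_insert_of_notMem hvM] at this
    omega
  -- used vertices of a class
  have hused : ∀ P, ((cls κ P ∩ U).card : ℝ) ≤ ∑ f ∈ F with (∃ l, f l = P), (m f : ℝ) := by
    intro P
    have h1 : (cls κ P ∩ U).card ≤ (M.filter (fun v => ∃ l, κ (v l) = P)).card := by
      have hch : ∀ x ∈ cls κ P ∩ U, ∃ v ∈ M, ∃ l, v l = x ∧ κ (v l) = P := by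
        intro x hx
        rw [mem_inter, hcls, hU] at hx
        obtain ⟨hx1, v, hv, l, hl⟩ := hx
        exact ⟨v, hv, l, hl, by rw [hl]; exact hx1⟩
      choose! g hg using hch
      refine Finset.card_le_card_of_injOn g ?_ ?_
      · intro x hx
        obtain ⟨h2, l, -, h4⟩ := hg x hx
        rw [mem_coe, mem_filter]
        exact ⟨h2, l, h4⟩
      · intro x hx y hy hxy
        obtain ⟨h2, l, h3, h4⟩ := hg x hx
        obtain ⟨h2', l', h3', h4'⟩ := hg y hy
        have hinj := hFinj _ (hM1 _ h2).1
        have : l = l' := by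
          apply hinj
          show κ (g x l) = κ (g x l')
          rw [h4, hxy, h4']
        rw [← h3, ← h3', hxy, this]
    have h2 : (M.filter (fun v => ∃ l, κ (v l) = P)).card =
        ∑ f ∈ F with (∃ l, f l = P), m f := by
      rw [Finset.card_eq_sum_card_fiberwise (f := fun v => κ ∘ v)
        (t := F.filter (fun f => ∃ l, f l = P))]
      · apply Finset.sum_congr rfl
        intro f hf
        rw [mem_filter] at hf
        congr 1
        ext v
        simp only [mem_filter]
        constructor
        · rintro ⟨⟨h3, -⟩, h4⟩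
          exact ⟨h3, h4⟩
        · rintro ⟨h3, h4⟩
          refine ⟨⟨h3, ?_⟩, h4⟩
          obtain ⟨l, hl⟩ := hf.2
          exact ⟨l, by rw [← hl, ← h4]; rfl⟩
      · intro v hv
        rw [mem_coe, mem_filter] at hv
        rw [mem_coe, mem_filter]
        exact ⟨(hM1 v hv.1).1, hv.2⟩
    calc ((cls κ P ∩ U).card : ℝ) ≤ ((M.filter (fun v => ∃ l, κ (v l) = P)).card : ℝ) := by
          exact_mod_cast h1
      _ = _ := by rw [h2]; push_cast; rfl
  have hMcard : (M.card : ℝ) = ∑ f ∈ F, (m f : ℝ) := by
    rw [Finset.card_eq_sum_card_fiberwise (f := fun v => κ ∘ v) (t := F)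
      (fun v hv => (hM1 v hv).1)]
    push_cast
    rfl
  have hnn : ∀ f ∈ F, 0 ≤ w f - m f := fun f hf => sub_nonneg.mpr (hM3 f hf)
  refine ⟨M, ?_, hM2, ?_⟩
  · intro v hv
    refine ⟨(hM1 v hv).2, ?_⟩
    have hinj := hFinj _ (hM1 v hv).1
    intro l l' h
    apply hinj
    show κ (v l) = κ (v l')
    rw [h]
  · -- counting
    have step1 : ∑ f ∈ F, (w f - m f) ≤
        ∑ f ∈ F, (1 + ∑ P ∈ exh, if (∃ l, f l = P) then (w f - m f) else 0) := by
      apply Finset.sum_le_sum
      intro f hf
      have h0 : ∀ P ∈ exh, 0 ≤ if (∃ l, f l = P) then (w f - m f) else 0 := by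
        intro P _
        split_ifs
        · exact hnn f hf
        · exact le_rfl
      by_cases hd : (m f : ℝ) + 1 ≤ w f
      · obtain ⟨l, hl⟩ := hdef f hf hd
        have h1 := Finset.single_le_sum h0 hl
        rw [if_pos ⟨l, rfl⟩] at h1
        linarith
      · have h1 := Finset.sum_nonneg h0
        push Not at hd
        linarith
    have step2 : ∑ f ∈ F, ∑ P ∈ exh, (if (∃ l, f l = P) then (w f - m f) else 0) =
        ∑ P ∈ exh, ∑ f ∈ F with (∃ l, f l = P), (w f - m f) := by
      rw [Finset.sum_comm]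
      apply Finset.sum_congr rfl
      intro P _
      rw [Finset.sum_filter]
    have step3 : ∑ P ∈ exh, ∑ f ∈ F with (∃ l, f l = P), (w f - m f) ≤
        ∑ P ∈ exh, δ * ((cls κ P).card : ℝ) := by
      apply Finset.sum_le_sum
      intro P hP
      have h1 : ((cls κ P \ U).card : ℝ) < δ * ((cls κ P).card : ℝ) := by
        simpa [exh] using hP
      have h2 := hcap P
      have h3 := hused P
      have h4 : ((cls κ P \ U).card : ℝ) + ((cls κ P ∩ U).card : ℝ) = ((cls κ P).card : ℝ) := by
        exact_mod_cast Finset.card_sdiff_add_card_inter (cls κ P) U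
      rw [Finset.sum_sub_distrib]
      linarith
    have step4 : ∑ P ∈ exh, δ * ((cls κ P).card : ℝ) ≤ δ * Fintype.card V := by
      have h1 : ∑ P ∈ exh, δ * ((cls κ P).card : ℝ) ≤ ∑ P, δ * ((cls κ P).card : ℝ) :=
        Finset.sum_le_sum_of_subset_of_nonneg (Finset.subset_univ _)
          (fun P _ _ => by positivity)
      have h2 : ∑ P, ((cls κ P).card : ℝ) = Fintype.card V := by
        rw [← Finset.card_univ, Finset.card_eq_sum_card_fiberwise (f := κ) (s := univ)
          (t := univ) (fun _ _ => mem_coe.mpr (mem_univ _))]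
        push_cast
        rfl
      rw [← Finset.mul_sum univ, h2] at h1
      exact h1
    rw [Finset.sum_add_distrib, step2] at step1
    rw [Finset.sum_sub_distrib] at step1
    simp only [Finset.sum_const, nsmul_eq_mul, mul_one] at step1
    linarith

end Pool.Agent.R342.SC
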