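import Pool.Agent.R342.SC.Count

/-! # The matching Ramsey theorem for connectors -/

namespace Pool.Agent.R342.SC

open Finset

/-- `M` is a matching of tuples in colour `E` -/
def IsMat {V : Type} {r : ℕ} (E : (Fin r → V) → Prop) (M : Finset (Fin r → V)) : Prop :=
  (∀ v ∈ M, E v ∧ Function.Injective v) ∧
    ∀ v ∈ M, ∀ v' ∈ M, v ≠ v' → ∀ l l', v l ≠ v' l'

/-- the covers -/
theorem cover (hG : StmG) (hD : StmD) {V : Type} [Fintype V] [DecidableEq V] {r N' N : ℕ}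
    (hr : 0 < r) (hN : N' ≤ N) (κ : V → Fin N') (E : (Fin r → V) → Prop) (δ : ℝ) (hδ : 0 < δ)
    (t : ℕ) (ht : 1 ≤ t) (hno : ¬ ∃ M, IsMat E M ∧ M.card = t) :
    ∃ c : Fin N' → ℝ, (∀ P, 0 ≤ c P) ∧ (∀ P, c P ≤ 1) ∧
      (∀ f : Fin r → Fin N', Function.Injective f → Robust δ E (bx κ f) → 1 ≤ ∑ l, c (f l)) ∧
      ∑ x, c (κ x) ≤ t + (N : ℝ) ^ r + δ * Fintype.card V := by
  classical
  let F : Finset (Fin r → Fin N') :=
    univ.filter fun f => Function.Injective f ∧ Robust δ E (bx κ f)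
  have hF : (F.card : ℝ) ≤ (N : ℝ) ^ r := by
    have h1 : F.card ≤ N' ^ r := by
      have := card_le_univ F
      rwa [Fintype.card_fun, Fintype.card_fin, Fintype.card_fin] at this
    have h2 : F.card ≤ N ^ r := h1.trans (Nat.pow_le_pow_left hN r)
    exact_mod_cast h2
  have ht0 : (1 : ℝ) ≤ t := by exact_mod_cast ht
  have hpos : 0 < (t : ℝ) + (N : ℝ) ^ r + δ * Fintype.card V := by positivity
  obtain ⟨c, h1, h2, h3, h4⟩ := hD (Fin N') r hr F (fun f hf => (mem_filter.1 hf).2.1)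
    (fun P => ((cls κ P).card : ℝ)) (fun P => Nat.cast_nonneg _)
    ((t : ℝ) + (N : ℝ) ^ r + δ * Fintype.card V) hpos (by
      intro w hw0 hw
      obtain ⟨M, hM1, hM2, hM3⟩ := hG V (Fin N') r hr κ E δ hδ F
        (fun f hf => (mem_filter.1 hf).2.1) (fun f hf => (mem_filter.1 hf).2.2) w hw0 hw
      have h5 : M.card < t := by
        by_contra h6
        push Not at h6
        obtain ⟨M', h7, h8⟩ := exists_subset_card_eq h6
        exact hno ⟨M', ⟨fun v hv => hM1 v (h7 hv),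
          fun v hv v' hv' => hM2 v (h7 hv) v' (h7 hv')⟩, h8⟩
      have h6 : (M.card : ℝ) < t := by exact_mod_cast h5
      linarith)
  refine ⟨c, h1, h2, fun f hf hf' => h3 f ?_, ?_⟩
  · exact mem_filter.2 ⟨mem_univ _, hf, hf'⟩
  · rw [sum_cls] at h4
    exact h4

theorem main_ineq {q r : ℕ} (hr : 2 ≤ r) (ε : ℝ) (hε : 0 < ε) (n Nr δ ω ζS X T : ℝ) (tau : Fin q → ℝ)
    (hn : 0 < n) (hNr : 0 ≤ Nr)
    (hδ : δ = ε / (8 * (q + r))) (hω : ω = ε / (8 * (q + r)))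
    (hζS : ζS ≤ ε / 4) (hbig : q + (q + r) * Nr ≤ ε / 4 * n)
    (hX : X = T + Nr + δ * n + ω * n)
    (hmain : (r - 1) * T + ∑ j, (tau j - 1) + 1 + ε * n ≤ n) :
    (r - 1) * X + ε / 4 * n ≤ n - ζS * n - ∑ j, (tau j + Nr + δ * n + ω * n) := by
  have hD : (0 : ℝ) < q + r := by
    have : (2 : ℝ) ≤ r := by exact_mod_cast hr
    positivity
  have h1 : ∑ j, (tau j + Nr + δ * n + ω * n) = ∑ j, tau j + q * (Nr + δ * n + ω * n) := by
    rw [sum_congr rfl (fun j _ => by ring : ∀ j ∈ univ, tau j + Nr + δ * n + ω * n =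
      tau j + (Nr + δ * n + ω * n)), sum_add_distrib, sum_const, card_univ, Fintype.card_fin,
      nsmul_eq_mul]
  have h2 : ∑ j, (tau j - 1) = ∑ j, tau j - q := by
    rw [sum_sub_distrib, sum_const, card_univ, Fintype.card_fin, nsmul_eq_mul, mul_one]
  rw [h1, hX]
  rw [h2] at hmain
  have h3 : (q + r) * (δ * n + ω * n) = ε / 4 * n := by
    rw [hδ, hω]; field_simp; ring
  have h4 : 0 ≤ δ * n + ω * n := by rw [hδ, hω]; positivity
  have h5 : ζS * n ≤ ε / 4 * n := mul_le_mul_of_nonneg_right hζS hn.le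
  nlinarith

theorem main (hG : StmG) (hD : StmD) (hR : StmR) (q r : ℕ) (hr : 2 ≤ r) (ε : ℝ)
    (hε : 0 < ε) : ∃ x0 : ℝ, 0 < x0 ∧ ∀ (V : Type) [Fintype V] [DecidableEq V] (s : ℕ)
      (t : Fin q → ℕ) (T : ℕ) (Ed : Fin q → (Fin r → V) → Prop), 1 ≤ s →
      (s : ℝ) ≤ x0 * Fintype.card V → (∀ j, 1 ≤ t j) → (∀ j, t j ≤ T) →
      ((r : ℝ) - 1) * T + ∑ j, ((t j : ℝ) - 1) + 1 + ε * Fintype.card V ≤ Fintype.card V →
      (∀ A : Fin r → Finset V, (∀ i, s ≤ (A i).card) → Pairwise (Function.onFun Disjoint A) →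
        ∃ j, Cross (Ed j) A) → ∃ j M, IsMat (Ed j) M ∧ M.card = t j := by
  classical
  have hr0 : (2 : ℝ) ≤ r := by exact_mod_cast hr
  have hDpos : (0 : ℝ) < q + r := by positivity
  -- the constants
  obtain ⟨δ, hδ⟩ : ∃ δ : ℝ, δ = ε / (8 * (q + r)) := ⟨_, rfl⟩
  obtain ⟨ω, hω⟩ : ∃ ω : ℝ, ω = ε / (8 * (q + r)) := ⟨_, rfl⟩
  have hδ0 : 0 < δ := by rw [hδ]; positivity
  have hω0 : 0 < ω := by rw [hω]; positivity
  obtain ⟨L, hL⟩ : ∃ L : ℕ, L = ⌊1 / ω⌋₊ + 1 := ⟨_, rfl⟩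
  have hL0 : 0 < L := by omega
  have : Nonempty (Fin q → Fin L) := ⟨fun _ => ⟨0, hL0⟩⟩
  obtain ⟨cS, hcS⟩ : ∃ cS : ℝ, cS = Fintype.card (Fin q → Fin L) := ⟨_, rfl⟩
  have hcS0 : 0 < cS := by rw [hcS]; exact_mod_cast Fintype.card_pos
  obtain ⟨ζ, hζ⟩ : ∃ ζ : ℝ, ζ = ε / (4 * cS) := ⟨_, rfl⟩
  have hζ0 : 0 < ζ := by rw [hζ]; positivity
  have hζr : 0 < ζ ^ r := by positivity
  obtain ⟨m, hm⟩ := exists_nat_gt (8 * (r * r) / ζ ^ r)
  have hm0 : 0 < m := by
    have : (0 : ℝ) < m := lt_of_le_of_lt (by positivity) hm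
    exact_mod_cast this
  obtain ⟨N, hN⟩ := partition_lemma q r δ (ζ ^ r / 8) hδ0 (by positivity) m
  obtain ⟨n0, hn0⟩ : ∃ n0 : ℝ, n0 = 8 * (r * r) / ζ ^ r + (q + (q + r) * (N : ℝ) ^ r) * 4 / ε + 1 :=
    ⟨_, rfl⟩
  have hn0p : 0 < n0 := by rw [hn0]; positivity
  refine ⟨min (1 / n0) (ζ ^ r / (8 * (r * (N + 1)))), by positivity, ?_⟩
  intro V _ _ s t T Ed hs hsx ht htT hmain conn
  obtain ⟨n, hn⟩ : ∃ n : ℝ, n = Fintype.card V := ⟨_, rfl⟩
  rw [← hn] at hsx hmain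
  have hs1 : (1 : ℝ) ≤ s := by exact_mod_cast hs
  have hnn : 0 ≤ n := by rw [hn]; positivity
  have hnn0 : n0 ≤ n := by
    have h1 : (1 : ℝ) ≤ 1 / n0 * n :=
      hs1.trans (hsx.trans (mul_le_mul_of_nonneg_right (min_le_left _ _) hnn))
    rw [div_mul_eq_mul_div, one_mul, le_div_iff₀ hn0p] at h1
    linarith
  have hnpos : 0 < n := by linarith
  have hsn : r * (N * s) ≤ ζ ^ r / 8 * n := by
    have h1 : (s : ℝ) ≤ ζ ^ r / (8 * (r * (N + 1))) * n :=
      hsx.trans (mul_le_mul_of_nonneg_right (min_le_right _ _) hnn)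
    calc (r : ℝ) * (N * s) ≤ r * ((N + 1) * s) := by
          have : (0 : ℝ) ≤ s := by positivity
          nlinarith
      _ ≤ r * ((N + 1) * (ζ ^ r / (8 * (r * (N + 1))) * n)) := by gcongr
      _ = ζ ^ r / 8 * n := by field_simp
  have hbig : q + (q + r) * (N : ℝ) ^ r ≤ ε / 4 * n := by
    have h1 : (q + (q + r) * (N : ℝ) ^ r) * 4 / ε ≤ n := by
      have : 0 ≤ 8 * ((r : ℝ) * r) / ζ ^ r := by positivity
      linarith
    rw [div_le_iff₀ hε] at h1
    linarith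
  have hnr : (r : ℝ) * r ≤ ζ ^ r / 8 * n := by
    have h1 : 8 * ((r : ℝ) * r) / ζ ^ r ≤ n := by
      have : 0 ≤ (q + (q + r) * (N : ℝ) ^ r) * 4 / ε := by positivity
      linarith
    rw [div_le_iff₀ hζr] at h1
    linarith
  by_contra hno
  push Not at hno
  obtain ⟨κ0, hκ0⟩ := exists_equi (V := V) m hm0
  obtain ⟨N', hN', κ, hκ1, hκ2⟩ := hN V s Ed conn κ0
  have hB := cls_refine hκ1 hκ0
  have hcov := fun j => cover hG hD (by omega) hN' κ (Ed j) δ hδ0 (t j) (ht j) (by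
    rintro ⟨M, hM1, hM2⟩
    exact hno j M hM1 hM2)
  choose c hc0 hc1 hc2 hc3 using hcov
  -- types
  have hlt : ∀ j x, ⌊c j (κ x) / ω⌋₊ < L := by
    intro j x
    rw [hL]
    exact Nat.lt_succ_of_le (Nat.floor_le_floor (div_le_div_of_nonneg_right (hc1 j _) hω0.le))
  let ty : V → Fin q → Fin L := fun x j => ⟨⌊c j (κ x) / ω⌋₊, hlt j x⟩
  let a : (Fin q → Fin L) → Fin q → ℝ := fun σ j => ω * (((σ j : ℕ) : ℝ) + 1)
  have ha0 : ∀ σ j, 0 ≤ a σ j := fun σ j => by positivity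
  have ha1 : ∀ x j, c j (κ x) ≤ a (ty x) j := by
    intro x j
    have h1 := Nat.lt_floor_add_one (c j (κ x) / ω)
    rw [div_lt_iff₀ hω0] at h1
    show c j (κ x) ≤ ω * ((⌊c j (κ x) / ω⌋₊ : ℝ) + 1)
    linarith
  have ha2 : ∀ x j, a (ty x) j ≤ c j (κ x) + ω := by
    intro x j
    have h1 := Nat.floor_le (div_nonneg (hc0 j (κ x)) hω0.le)
    rw [le_div_iff₀ hω0] at h1
    show ω * ((⌊c j (κ x) / ω⌋₊ : ℝ) + 1) ≤ c j (κ x) + ω
    linarith
  obtain ⟨X, hX⟩ : ∃ X : ℝ, X = T + (N : ℝ) ^ r + δ * n + ω * n := ⟨_, rfl⟩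
  have hineq := main_ineq (q := q) hr ε hε n ((N : ℝ) ^ r) δ ω (ζ * cS) X T (fun j => (t j : ℝ))
    hnpos (by positivity) hδ hω (by rw [hζ]; field_simp; norm_num) hbig hX hmain
  have hX0 : 0 < X := by rw [hX]; positivity
  have hsum : ∀ j, ∑ x, a (ty x) j ≤ t j + (N : ℝ) ^ r + δ * n + ω * n := by
    intro j
    calc ∑ x, a (ty x) j ≤ ∑ x, (c j (κ x) + ω) := sum_le_sum fun x _ => ha2 x j
      _ = ∑ x, c j (κ x) + n * ω := by
          rw [sum_add_distrib, sum_const, card_univ, nsmul_eq_mul, hn]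
      _ ≤ _ := by
          have := hc3 j
          rw [← hn] at this
          linarith
  have hXn : X ≤ n := by
    have h1 : 0 ≤ ∑ j, ((t j : ℝ) + (N : ℝ) ^ r + δ * n + ω * n) :=
      sum_nonneg fun j _ => by positivity
    have h2 : 0 ≤ ζ * cS * n := by positivity
    have h3 : 0 ≤ ε / 4 * n := by positivity
    nlinarith
  obtain ⟨b0, hb0⟩ : ∃ b0 : ℝ, b0 = (r : ℝ) + q - 1 := ⟨_, rfl⟩
  have hb0p : 0 < b0 := by
    have : (0 : ℝ) ≤ q := by positivity
    rw [hb0]; linarith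
  obtain ⟨β, hβ⟩ : ∃ β : ℝ, β = (b0 + ε / 8) / (b0 + ε / 4) := ⟨_, rfl⟩
  have hβ0 : 0 < β := by rw [hβ]; positivity
  have hβ1 : β < 1 := by
    rw [hβ, div_lt_one (by positivity)]
    linarith
  have hβ2 : β * (b0 + ε / 4) = b0 + ε / 8 := by
    rw [hβ]; field_simp
  let θ : ℝ := β / X
  have hθ0 : 0 < θ := by positivity
  let lam : (Fin q → Fin L) → ℝ := fun σ => ((cls ty σ).card : ℝ)
  let x : (Fin q → Fin L) → ℝ := fun σ => if ζ * n ≤ lam σ then θ * lam σ else 0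
  have hx0 : ∀ σ, 0 ≤ x σ := by
    intro σ
    simp only [x]
    split_ifs
    · positivity
    · exact le_rfl
  have hxle : ∀ σ, x σ ≤ θ * lam σ := by
    intro σ
    simp only [x]
    split_ifs
    · exact le_rfl
    · positivity
  have hxa : ∀ j, ∑ σ, x σ * a σ j ≤ θ * (t j + (N : ℝ) ^ r + δ * n + ω * n) := by
    intro j
    calc ∑ σ, x σ * a σ j ≤ ∑ σ, (θ * lam σ) * a σ j :=
          sum_le_sum fun σ _ => mul_le_mul_of_nonneg_right (hxle σ) (ha0 σ j)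
      _ = θ * ∑ σ, a σ j * ((cls ty σ).card : ℝ) := by
          rw [mul_sum]
          exact sum_congr rfl fun σ _ => by ring
      _ = θ * ∑ x, a (ty x) j := by rw [sum_cls ty (fun σ => a σ j)]
      _ ≤ _ := mul_le_mul_of_nonneg_left (hsum j) hθ0.le
  have hy : ∀ j, ∑ σ, x σ * a σ j ≤ β := by
    intro j
    refine (hxa j).trans ?_
    have h1 : (t j : ℝ) + (N : ℝ) ^ r + δ * n + ω * n ≤ X := by
      rw [hX]
      have : (t j : ℝ) ≤ T := by exact_mod_cast htT j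
      linarith
    calc θ * ((t j : ℝ) + (N : ℝ) ^ r + δ * n + ω * n) ≤ θ * X :=
          mul_le_mul_of_nonneg_left h1 hθ0.le
      _ = β := div_mul_cancel₀ _ hX0.ne'
  have hxs : θ * (n - ζ * cS * n) ≤ ∑ σ, x σ := by
    have h1 : ∀ σ, θ * (lam σ - ζ * n) ≤ x σ := by
      intro σ
      simp only [x]
      split_ifs with h
      · have : 0 ≤ ζ * n := by positivity
        exact mul_le_mul_of_nonneg_left (by linarith) hθ0.le
      · push Not at h
        exact mul_nonpos_of_nonneg_of_nonpos hθ0.le (by linarith)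
    refine le_trans (le_of_eq ?_) (sum_le_sum fun σ _ => h1 σ)
    rw [← mul_sum, sum_sub_distrib, sum_const, card_univ, nsmul_eq_mul]
    have h2 : ∑ σ, lam σ = n := by
      rw [hn, ← sum_cls_card ty]
      push_cast
      rfl
    rw [h2, ← hcS]
    ring
  have hT : (r : ℝ) + q - 1 < ∑ σ, x σ + ∑ j, (β - ∑ σ, x σ * a σ j) := by
    have h1 : q * β - θ * ∑ j, ((t j : ℝ) + (N : ℝ) ^ r + δ * n + ω * n) ≤
        ∑ j, (β - ∑ σ, x σ * a σ j) := by
      rw [sum_sub_distrib, sum_const, card_univ, Fintype.card_fin, nsmul_eq_mul, mul_sum]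
      have := sum_le_sum fun j (_ : j ∈ univ) => hxa j
      linarith
    have h2 : θ * ((r - 1) * X + ε / 4 * n) ≤ θ * (n - ζ * cS * n -
        ∑ j, ((t j : ℝ) + (N : ℝ) ^ r + δ * n + ω * n)) := mul_le_mul_of_nonneg_left hineq hθ0.le
    have h3 : θ * X = β := div_mul_cancel₀ _ hX0.ne'
    have h4 : β ≤ θ * n := by
      rw [← h3]
      exact mul_le_mul_of_nonneg_left hXn hθ0.le
    have h5 : ε / 4 * β ≤ ε / 4 * (θ * n) := mul_le_mul_of_nonneg_left h4 (by positivity)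
    have h6 : θ * ((r - 1) * X + ε / 4 * n) = (r - 1) * β + ε / 4 * (θ * n) := by
      rw [← h3]; ring
    have h7 : β * (b0 + ε / 4) = (r - 1) * β + q * β + ε / 4 * β := by rw [hb0]; ring
    rw [← hb0]
    have h8 : 0 < ε / 8 := by positivity
    linarith
  obtain ⟨u, hu1, hu2⟩ := hR (Fin q → Fin L) q r a ha0 (by omega) x hx0 β hβ0.le hβ1 hy hT
  have hu3 : ∀ l, ζ * n ≤ lam (u l) := by
    intro l
    have := hu1 l
    simp only [x] at this
    split_ifs at this with h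
    · exact h
    · exact absurd this (lt_irrefl _)
  -- the tuples of these types
  let W : Finset (Fin r → V) := Fintype.piFinset fun l => cls ty (u l)
  have hW : (ζ * n) ^ r ≤ W.card := by
    rw [Fintype.card_piFinset]
    push_cast
    calc (ζ * n) ^ r = ∏ _ : Fin r, (ζ * n) := by simp
      _ ≤ ∏ l, ((cls ty (u l)).card : ℝ) :=
          prod_le_prod (fun _ _ => by positivity) (fun l _ => hu3 l)
  have hWsub : W ⊆ (univ.filter fun v : Fin r → V => ¬ Function.Injective (κ ∘ v)) ∪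
      ((univ.filter fun v : Fin r → V => ∃ l, (cls κ (κ (v l))).card < s) ∪ Bad δ s Ed κ) := by
    intro v hv
    rw [mem_union, mem_union]
    by_contra hcon
    push Not at hcon
    obtain ⟨h1, h2, h3⟩ := hcon
    simp only [mem_filter, mem_univ, true_and, not_not, not_exists, not_lt] at h1 h2
    unfold Bad at h3
    simp only [mem_filter, mem_univ, true_and] at h3
    unfold BadF at h3
    push Not at h3
    obtain ⟨j, hj⟩ := h3 h1 h2
    have h4 := hc2 j (κ ∘ v) h1 hj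
    have h5 : ∑ l, c j ((κ ∘ v) l) ≤ ∑ l, a (u l) j := by
      refine sum_le_sum fun l _ => ?_
      have h6 : ty (v l) = u l := by
        have := Fintype.mem_piFinset.1 hv l
        simpa [cls] using this
      rw [← h6]
      exact ha1 (v l) j
    linarith [hu2 j]
  have h1 := card_nonInj (r := r) κ _ hB hr
  have h2 := card_small (r := r) κ s
  have h3 : (W.card : ℝ) ≤ r * r * ((n / m + 1) * n ^ (r - 1)) + r * (N * s * n ^ (r - 1)) +
      ζ ^ r / 8 * n ^ r := by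
    have h4 : W.card ≤ r * r * ((Fintype.card V / m + 1) * Fintype.card V ^ (r - 1)) +
        (r * (N' * s * Fintype.card V ^ (r - 1)) + (Bad δ s Ed κ).card) :=
      (card_le_card hWsub).trans ((card_union_le _ _).trans (Nat.add_le_add h1
        ((card_union_le _ _).trans (Nat.add_le_add_right h2 _))))
    have h5 : ((Fintype.card V / m : ℕ) : ℝ) ≤ n / m := by
      rw [hn]; exact Nat.cast_div_le
    have h6 : (W.card : ℝ) ≤ r * r * ((((Fintype.card V / m : ℕ) : ℝ) + 1) * n ^ (r - 1)) +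
        (r * (N' * s * n ^ (r - 1)) + (Bad δ s Ed κ).card) := by
      rw [hn]; exact_mod_cast h4
    have h7 : (N' : ℝ) ≤ N := by exact_mod_cast hN'
    rw [← hn] at hκ2
    calc (W.card : ℝ) ≤ _ := h6
      _ ≤ r * r * ((n / m + 1) * n ^ (r - 1)) + (r * (N * s * n ^ (r - 1)) +
          ζ ^ r / 8 * n ^ r) := by gcongr
      _ = _ := by ring
  have h4 : n ^ r = n * n ^ (r - 1) := by
    rw [← pow_succ']; congr 1; omega
  have h5 : 0 < n ^ (r - 1) := by positivity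
  have h6 : (r : ℝ) * r * (n / m) ≤ ζ ^ r / 8 * n := by
    have h7 : 8 * ((r : ℝ) * r) ≤ m * ζ ^ r := ((div_lt_iff₀ hζr).1 hm).le
    have hm1 : (0 : ℝ) < m := by exact_mod_cast hm0
    rw [← mul_div_assoc, div_le_iff₀ hm1]
    have h8 := mul_le_mul_of_nonneg_right h7 hnn
    linarith
  have h7 : ζ ^ r * n * n ^ (r - 1) ≤ (ζ ^ r / 2 * n) * n ^ (r - 1) := by
    calc ζ ^ r * n * n ^ (r - 1) = (ζ * n) ^ r := by rw [mul_pow, h4]; ring
      _ ≤ _ := hW
      _ ≤ _ := h3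
      _ = (r * r * (n / m) + r * r + r * (N * s) + ζ ^ r / 8 * n) * n ^ (r - 1) := by
          rw [h4]; ring
      _ ≤ (ζ ^ r / 2 * n) * n ^ (r - 1) := by
          refine mul_le_mul_of_nonneg_right ?_ h5.le
          linarith
  have h8 := le_of_mul_le_mul_right h7 h5
  have h9 : 0 < ζ ^ r * n := by positivity
  linarith

end Pool.Agent.R342.SC
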