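import Pool.Agent.R342.SC.Stm

/-! # The partition lemma (energy increment) -/

namespace Pool.Agent.R342.SC

open Finset

variable {V : Type} [Fintype V] [DecidableEq V] {q r N : ℕ}

/-- the family of classes of a tuple of points -/
def bx {V : Type} [Fintype V] {r N : ℕ} (κ : V → Fin N) (f : Fin r → Fin N) : Fin r → Finset V :=
  fun l => cls κ (f l)

open Classical in
/-- absent colours -/
noncomputable def J (Ed : Fin q → (Fin r → V) → Prop) (κ : V → Fin N) (v : Fin r → V) :
    Finset (Fin q) := univ.filter fun j => ¬ Cross (Ed j) (bx κ (κ ∘ v))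

/-- bad tuples of labels -/
def BadF (δ : ℝ) (s : ℕ) (Ed : Fin q → (Fin r → V) → Prop) (κ : V → Fin N) (f : Fin r → Fin N) :
    Prop :=
  Function.Injective f ∧ (∀ l, s ≤ (cls κ (f l)).card) ∧ ∀ j, ¬ Robust δ (Ed j) (bx κ f)

open Classical in
/-- tuples of points in bad tuples of classes -/
noncomputable def Bad (δ : ℝ) (s : ℕ) (Ed : Fin q → (Fin r → V) → Prop) (κ : V → Fin N) :
    Finset (Fin r → V) := univ.filter fun v => BadF δ s Ed κ (κ ∘ v)

omit [Fintype V] [DecidableEq V] in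
theorem cross_mono {E : (Fin r → V) → Prop} {A B : Fin r → Finset V} (h : ∀ l, A l ⊆ B l)
    (hA : Cross E A) : Cross E B := by
  obtain ⟨v, hv, hE⟩ := hA
  exact ⟨v, fun l => h l (hv l), hE⟩

omit [DecidableEq V] in
theorem mem_cls {κ : V → Fin N} {P : Fin N} {x : V} : x ∈ cls κ P ↔ κ x = P := by
  simp [cls]

/-- number of labels after one step -/
def nxt (r N : ℕ) : ℕ := Fintype.card (Fin N × ((Fin r → Fin N) → Fin r → Bool))

theorem le_nxt (r N : ℕ) : N ≤ nxt r N := by
  unfold nxt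
  rw [Fintype.card_prod, Fintype.card_fin]
  exact Nat.le_mul_of_pos_right _ Fintype.card_pos

theorem step (δ : ℝ) (hδ : 0 < δ) (s : ℕ) (Ed : Fin q → (Fin r → V) → Prop)
    (conn : ∀ A : Fin r → Finset V, (∀ i, s ≤ (A i).card) → Pairwise (Function.onFun Disjoint A) →
      ∃ j, Cross (Ed j) A) (κ : V → Fin N) :
    ∃ κ' : V → Fin (nxt r N), (∀ x y, κ' x = κ' y → κ x = κ y) ∧
      (∑ v, ((J Ed κ v).card : ℝ)) + δ ^ r * (Bad δ s Ed κ).card ≤
        ∑ v, ((J Ed κ' v).card : ℝ) := by
  classical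
  -- witnesses
  have hw : ∀ f : Fin r → Fin N, ∃ (j : Option (Fin q)) (A : Fin r → Finset V), BadF δ s Ed κ f →
      ∃ j', j = some j' ∧ Cross (Ed j') (bx κ f) ∧ (∀ l, A l ⊆ cls κ (f l)) ∧
        (∀ l, δ * ((cls κ (f l)).card : ℝ) ≤ (A l).card) ∧ ¬ Cross (Ed j') A := by
    intro f
    by_cases hf : BadF δ s Ed κ f
    · obtain ⟨h1, h2, h3⟩ := hf
      obtain ⟨j, hj⟩ := conn (bx κ f) h2 (by
        intro a b hab
        show Disjoint (cls κ (f a)) (cls κ (f b))
        rw [Finset.disjoint_left]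
        intro x hx hx'
        rw [mem_cls] at hx hx'
        exact hab (h1 (hx.symm.trans hx')))
      have h4 := h3 j
      unfold Robust at h4
      push Not at h4
      obtain ⟨A, hA1, hA2, hA3⟩ := h4
      exact ⟨some j, A, fun _ => ⟨j, rfl, hj, hA1, hA2, hA3⟩⟩
    · exact ⟨none, fun _ => ∅, fun h => absurd h hf⟩
  choose jj A hA using hw
  let lab : V → Fin N × ((Fin r → Fin N) → Fin r → Bool) :=
    fun x => (κ x, fun f l => decide (x ∈ A f l))
  let e := Fintype.equivFin (Fin N × ((Fin r → Fin N) → Fin r → Bool))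
  let κ' : V → Fin (nxt r N) := fun x => e (lab x)
  have hκ' : ∀ x y, κ' x = κ' y → lab x = lab y := fun x y h => e.injective h
  refine ⟨κ', fun x y h => congrArg Prod.fst (hκ' x y h), ?_⟩
  have hsub : ∀ x, cls κ' (κ' x) ⊆ cls κ (κ x) := by
    intro x y hy
    rw [mem_cls] at hy ⊢
    exact congrArg Prod.fst (hκ' y x hy)
  have hsubA : ∀ x f l, x ∈ A f l → cls κ' (κ' x) ⊆ A f l := by
    intro x f l hx y hy
    rw [mem_cls] at hy
    have h1 := congrArg (fun t => t.2 f l) (hκ' y x hy)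
    simp only [lab] at h1
    simpa [hx] using h1
  have hJ : ∀ v, J Ed κ v ⊆ J Ed κ' v := by
    intro v j hj
    unfold J at hj ⊢
    rw [mem_filter] at hj ⊢
    exact ⟨hj.1, fun h => hj.2 (cross_mono (fun l => hsub (v l)) h)⟩
  let G : Finset (Fin r → V) := univ.filter fun v => BadF δ s Ed κ (κ ∘ v) ∧ ∀ l, v l ∈ A (κ ∘ v) l
  have hG : ∀ v ∈ G, (J Ed κ v).card + 1 ≤ (J Ed κ' v).card := by
    intro v hv
    obtain ⟨h1, h2⟩ := (mem_filter.1 hv).2
    obtain ⟨j, _, h3, h4, h5, h6⟩ := hA _ h1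
    have h7 : j ∉ J Ed κ v := by
      unfold J; rw [mem_filter]; push Not
      exact fun _ => h3
    have h8 : j ∈ J Ed κ' v := by
      unfold J; rw [mem_filter]
      refine ⟨mem_univ _, fun h => h6 (cross_mono (fun l => ?_) h)⟩
      exact hsubA _ _ _ (h2 l)
    have h9 : insert j (J Ed κ v) ⊆ J Ed κ' v := insert_subset h8 (hJ v)
    have := card_le_card h9
    rwa [card_insert_of_notMem h7] at this
  have h1 : (∑ v, ((J Ed κ v).card : ℝ)) + G.card ≤ ∑ v, ((J Ed κ' v).card : ℝ) := by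
    have : ((G.card : ℕ) : ℝ) = ∑ v, if v ∈ G then (1 : ℝ) else 0 := by simp
    rw [this, ← sum_add_distrib]
    refine sum_le_sum fun v _ => ?_
    split_ifs with h
    · exact_mod_cast hG v h
    · rw [add_zero]
      exact_mod_cast card_le_card (hJ v)
  have h2 : δ ^ r * ((Bad δ s Ed κ).card : ℝ) ≤ G.card := by
    let B : Finset (Fin r → Fin N) := univ.filter fun f => BadF δ s Ed κ f
    have hb : (Bad δ s Ed κ).card = ∑ f ∈ B, ∏ l, (cls κ (f l)).card := by
      rw [card_eq_sum_card_fiberwise (f := fun v => κ ∘ v) (t := B)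
        (fun v hv => by
          simp only [B, coe_filter, mem_univ, true_and]
          exact (mem_filter.1 hv).2)]
      refine sum_congr rfl fun f hf => ?_
      rw [← Fintype.card_piFinset]
      congr 1
      ext v
      simp only [Bad, mem_filter, mem_univ, true_and, Fintype.mem_piFinset, mem_cls]
      constructor
      · rintro ⟨_, h⟩ l
        exact congrFun h l
      · intro h
        have h' : κ ∘ v = f := funext h
        exact ⟨by rw [h']; exact (mem_filter.1 hf).2, h'⟩
    have hg : G.card = ∑ f ∈ B, ∏ l, (A f l).card := by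
      rw [card_eq_sum_card_fiberwise (f := fun v => κ ∘ v) (t := B)
        (fun v hv => by
          simp only [B, coe_filter, mem_univ, true_and]
          exact (mem_filter.1 hv).2.1)]
      refine sum_congr rfl fun f hf => ?_
      rw [← Fintype.card_piFinset]
      congr 1
      ext v
      simp only [G, mem_filter, mem_univ, true_and, Fintype.mem_piFinset]
      constructor
      · rintro ⟨⟨_, h⟩, h'⟩ l
        rw [← h']; exact h l
      · intro h
        obtain ⟨j, _, _, h4, _, _⟩ := hA f (mem_filter.1 hf).2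
        have h' : κ ∘ v = f := funext fun l => (mem_cls (κ := κ) (x := v l)).1 (h4 l (h l))
        exact ⟨⟨by rw [h']; exact (mem_filter.1 hf).2, fun l => by rw [h']; exact h l⟩, h'⟩
    rw [hb, hg]
    push_cast
    rw [mul_sum]
    refine sum_le_sum fun f hf => ?_
    obtain ⟨j, _, _, _, h5, _⟩ := hA f (mem_filter.1 hf).2
    calc δ ^ r * ∏ l, ((cls κ (f l)).card : ℝ) = ∏ l, (δ * ((cls κ (f l)).card : ℝ)) := by
          rw [prod_mul_distrib]; simp
      _ ≤ ∏ l, ((A f l).card : ℝ) :=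
          prod_le_prod (fun l _ => by positivity) (fun l _ => h5 l)
  linarith

/-- number of labels after `k` steps -/
def nn (r m : ℕ) : ℕ → ℕ
  | 0 => m
  | k + 1 => nxt r (nn r m k)

theorem nn_mono (r m : ℕ) : Monotone (nn r m) :=
  monotone_nat_of_le_succ fun _ => le_nxt r _

theorem partition_lemma (q r : ℕ) (δ η : ℝ) (hδ : 0 < δ) (hη : 0 < η) (m : ℕ) :
    ∃ N : ℕ, ∀ (V : Type) [Fintype V] [DecidableEq V] (s : ℕ) (Ed : Fin q → (Fin r → V) → Prop),
      (∀ A : Fin r → Finset V, (∀ i, s ≤ (A i).card) → Pairwise (Function.onFun Disjoint A) →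
        ∃ j, Cross (Ed j) A) → ∀ κ0 : V → Fin m,
      ∃ N' ≤ N, ∃ κ : V → Fin N', (∀ x y, κ x = κ y → κ0 x = κ0 y) ∧
        ((Bad δ s Ed κ).card : ℝ) ≤ η * (Fintype.card V : ℝ) ^ r := by
  classical
  obtain ⟨K, hK⟩ := exists_nat_gt ((q : ℝ) / (δ ^ r * η))
  have hδη : 0 < δ ^ r * η := by positivity
  rw [div_lt_iff₀ hδη] at hK
  refine ⟨nn r m K, ?_⟩
  intro V _ _ s Ed conn κ0
  by_contra hcon
  push Not at hcon
  have key : ∀ k ≤ K, ∃ κ : V → Fin (nn r m k), (∀ x y, κ x = κ y → κ0 x = κ0 y) ∧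
      (k : ℝ) * (δ ^ r * η * (Fintype.card V : ℝ) ^ r) ≤ ∑ v, ((J Ed κ v).card : ℝ) := by
    intro k
    induction k with
    | zero =>
      intro _
      refine ⟨κ0, fun x y h => h, ?_⟩
      simp only [Nat.cast_zero, zero_mul]
      positivity
    | succ k ih =>
      intro hk
      obtain ⟨κ, h1, h2⟩ := ih (by omega)
      have h3 := hcon (nn r m k) (nn_mono r m (by omega)) κ h1
      obtain ⟨κ', h4, h5⟩ := step δ hδ s Ed conn κ
      refine ⟨κ', fun x y h => h1 x y (h4 x y h), ?_⟩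
      have h6 : δ ^ r * (η * (Fintype.card V : ℝ) ^ r) ≤ δ ^ r * (Bad δ s Ed κ).card :=
        mul_le_mul_of_nonneg_left h3.le (by positivity)
      have h7 : (∑ v, ((J Ed κ v).card : ℝ)) + δ ^ r * (Bad δ s Ed κ).card ≤
        ∑ v, ((J (N := nn r m (k + 1)) Ed κ' v).card : ℝ) := h5
      push_cast
      linarith
  obtain ⟨κ, h1, h2⟩ := key K le_rfl
  have h3 : ∑ v, ((J Ed κ v).card : ℝ) ≤ q * (Fintype.card V : ℝ) ^ r := by
    calc ∑ v, ((J Ed κ v).card : ℝ) ≤ ∑ _ : Fin r → V, (q : ℝ) := by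
          refine sum_le_sum fun v _ => ?_
          have := card_le_univ (J Ed κ v)
          rw [Fintype.card_fin] at this
          exact_mod_cast this
      _ = q * (Fintype.card V : ℝ) ^ r := by
          rw [sum_const, nsmul_eq_mul, card_univ, Fintype.card_fun, Fintype.card_fin]
          push_cast
          ring
  have h4 := hcon (nn r m K) le_rfl κ h1
  by_cases hV : (Fintype.card V : ℝ) ^ r = 0
  · rw [hV, mul_zero] at h4
    have h5 : ((Bad δ s Ed κ).card : ℝ) ≤ (Fintype.card V : ℝ) ^ r := by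
      have := card_le_univ (Bad δ s Ed κ)
      rw [Fintype.card_fun, Fintype.card_fin] at this
      exact_mod_cast this
    rw [hV] at h5
    linarith
  · have h5 : 0 < (Fintype.card V : ℝ) ^ r := lt_of_le_of_ne (by positivity) (Ne.symm hV)
    have h6 : (K : ℝ) * (δ ^ r * η) * (Fintype.card V : ℝ) ^ r ≤ q * (Fintype.card V : ℝ) ^ r := by
      linarith
    have h7 := le_of_mul_le_mul_right h6 h5
    linarith

end Pool.Agent.R342.SC
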