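import Pool.Agent.R342.SC.Stm

/-! # The rounding lemma `StmR` -/

namespace Pool.Agent.R342.SC

open Finset

/-- Carathéodory-type reduction of the support which does not decrease the sum of the
coefficients. -/
theorem round_red {I : Type*} [Fintype I] [DecidableEq I] (q : ℕ) (b : I → Fin q → ℝ)
    (hb : ∀ i j, 0 ≤ b i j) (t : Fin q → ℝ) :
    ∀ (n : ℕ) (y : I → ℝ), (univ.filter (fun i => y i ≠ 0)).card = n → (∀ i, 0 ≤ y i) →
      (∀ i, y i ≠ 0 → b i ≠ 0) → (∀ j, ∑ i, y i * b i j = t j) →
      ∃ y' : I → ℝ, (∀ i, 0 ≤ y' i) ∧ (∀ i, y' i ≠ 0 → y i ≠ 0) ∧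
        (univ.filter (fun i => y' i ≠ 0)).card ≤ q ∧ (∀ j, ∑ i, y' i * b i j = t j) ∧
        ∑ i, y i ≤ ∑ i, y' i := by
  intro n
  induction n using Nat.strong_induction_on with
  | _ n ih =>
    intro y hn hy hbn ht
    by_cases hq : n ≤ q
    · exact ⟨y, hy, fun i h => h, by omega, ht, le_rfl⟩
    push Not at hq
    -- a linear relation
    have hrel : ∃ d : I → ℝ, (∀ i, d i ≠ 0 → y i ≠ 0) ∧ (∀ j, ∑ i, d i * b i j = 0) ∧
        (∃ i, d i ≠ 0) ∧ 0 ≤ ∑ i, d i := by
      have h0 : ∃ d : I → ℝ, (∀ i, d i ≠ 0 → y i ≠ 0) ∧ (∀ j, ∑ i, d i * b i j = 0) ∧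
          (∃ i, d i ≠ 0) := by
        have hnl : ¬ LinearIndependent ℝ (fun i : {i : I // y i ≠ 0} => b i.1) := by
          intro hl
          have h1 := hl.fintype_card_le_finrank
          rw [Module.finrank_fin_fun, Fintype.card_subtype] at h1
          omega
        rw [Fintype.not_linearIndependent_iff] at hnl
        obtain ⟨g, hg, i0, hi0⟩ := hnl
        refine ⟨fun i => if h : y i ≠ 0 then g ⟨i, h⟩ else 0, ?_, ?_, ⟨i0.1, ?_⟩⟩
        · intro i hi hyi
          simp [hyi] at hi
        · intro j
          have h2 := congrFun hg j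
          rw [Finset.sum_apply] at h2
          simp only [Pi.smul_apply, smul_eq_mul, Pi.zero_apply] at h2
          set G : I → ℝ := fun i => (if h : y i ≠ 0 then g ⟨i, h⟩ else 0) * b i j with hG
          have h3 : ∑ i, G i = ∑ i ∈ univ.filter (fun i => y i ≠ 0), G i := by
            symm
            apply Finset.sum_filter_of_ne
            intro i _ hi hyi
            apply hi
            simp [hG, hyi]
          have h4 : ∑ i ∈ univ.filter (fun i => y i ≠ 0), G i
              = ∑ i : {i : I // y i ≠ 0}, G i.1 :=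
            Finset.sum_subtype _ (by simp) _
          change ∑ i, G i = 0
          rw [h3, h4]
          convert h2 using 1
          apply Finset.sum_congr
          · congr!
          · rintro ⟨i, hi⟩ _
            simp only [hG, dif_pos hi]
        · have := i0.2
          simpa [this] using hi0
      obtain ⟨d, hd1, hd2, hd3⟩ := h0
      by_cases hs : 0 ≤ ∑ i, d i
      · exact ⟨d, hd1, hd2, hd3, hs⟩
      · push Not at hs
        refine ⟨fun i => - d i, ?_, ?_, ?_, ?_⟩
        · intro i hi
          exact hd1 i (by simpa using hi)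
        · intro j
          simp only [neg_mul, Finset.sum_neg_distrib, hd2 j, neg_zero]
        · obtain ⟨i, hi⟩ := hd3
          exact ⟨i, by simpa using hi⟩
        · simp only [Finset.sum_neg_distrib]
          linarith
    obtain ⟨d, hd1, hd2, ⟨i1, hi1⟩, hd4⟩ := hrel
    have hneg : (univ.filter (fun i => d i < 0)).Nonempty := by
      by_contra hcon
      rw [Finset.not_nonempty_iff_eq_empty, Finset.filter_eq_empty_iff] at hcon
      have hd0 : ∀ i, 0 ≤ d i := fun i => not_lt.mp (hcon (mem_univ i))
      have hz : b i1 = 0 := by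
        funext j
        have h1 := (Finset.sum_eq_zero_iff_of_nonneg
          (fun i _ => mul_nonneg (hd0 i) (hb i j))).1 (hd2 j) i1 (mem_univ _)
        rcases mul_eq_zero.1 h1 with h2 | h2
        · exact absurd h2 hi1
        · exact h2
      exact hbn i1 (hd1 i1 hi1) hz
    obtain ⟨i0, hi0, hmin⟩ := Finset.exists_min_image _ (fun i => y i / (-d i)) hneg
    have hd0 : d i0 < 0 := (Finset.mem_filter.1 hi0).2
    set θ := y i0 / (-d i0) with hθ
    have hθ0 : 0 ≤ θ := div_nonneg (hy i0) (by linarith)
    set y1 : I → ℝ := fun i => y i + θ * d i with hy1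
    have hy1n : ∀ i, 0 ≤ y1 i := by
      intro i
      by_cases hdi : d i < 0
      · have h1 := hmin i (Finset.mem_filter.2 ⟨mem_univ _, hdi⟩)
        have h2 : θ * (-d i) ≤ y i := by
          have h3 : (0:ℝ) < -d i := by linarith
          exact (le_div_iff₀ h3).1 h1
        simp only [hy1]
        linarith
      · push Not at hdi
        have := mul_nonneg hθ0 hdi
        have := hy i
        simp only [hy1]
        linarith
    have hy1s : ∀ i, y1 i ≠ 0 → y i ≠ 0 := by
      intro i hi hyi
      apply hi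
      have hdi : d i = 0 := by
        by_contra h
        exact hd1 i h hyi
      simp [hy1, hyi, hdi]
    have hy10 : y1 i0 = 0 := by
      simp only [hy1, hθ]
      have : d i0 ≠ 0 := hd0.ne
      field_simp
      ring
    have hcard : (univ.filter (fun i => y1 i ≠ 0)).card < n := by
      rw [← hn]
      apply Finset.card_lt_card
      rw [Finset.ssubset_iff_of_subset]
      · refine ⟨i0, ?_, ?_⟩
        · simpa using hd1 i0 hd0.ne
        · simp [hy10]
      · intro i hi
        simp only [mem_filter, mem_univ, true_and] at hi ⊢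
        exact hy1s i hi
    obtain ⟨y', h1, h2, h3, h4, h5⟩ := ih _ hcard y1 rfl hy1n
      (fun i hi => hbn i (hy1s i hi)) (by
        intro j
        have : ∑ i, y1 i * b i j = ∑ i, y i * b i j + θ * ∑ i, d i * b i j := by
          rw [Finset.mul_sum, ← Finset.sum_add_distrib]
          refine Finset.sum_congr rfl fun i _ => ?_
          simp only [hy1]
          ring
        rw [this, ht j, hd2 j]
        ring)
    refine ⟨y', h1, fun i hi => hy1s i (h2 i hi), h3, h4, ?_⟩
    refine le_trans ?_ h5
    have : ∑ i, y1 i = ∑ i, y i + θ * ∑ i, d i := by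
      rw [Finset.mul_sum, ← Finset.sum_add_distrib]
    rw [this]
    have := mul_nonneg hθ0 hd4
    linarith

theorem round : StmR := by
  intro S _ q r a ha hr x hx β hβ0 hβ1 hxa hbig
  classical
  by_cases hz : ∃ s, 0 < x s ∧ a s = 0
  · obtain ⟨s, hs, has⟩ := hz
    refine ⟨fun _ => s, fun _ => hs, fun j => ?_⟩
    simp [has]
  push Not at hz
  let b : S ⊕ Fin q → Fin q → ℝ := Sum.elim a (fun j => Pi.single j 1)
  let y : S ⊕ Fin q → ℝ := Sum.elim x (fun j => β - ∑ s, x s * a s j)
  have hb : ∀ i j, 0 ≤ b i j := by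
    rintro (s | k) j
    · exact ha s j
    · simp only [b, Sum.elim_inr, Pi.single_apply]
      split_ifs <;> norm_num
  have hy : ∀ i, 0 ≤ y i := by
    rintro (s | k)
    · exact hx s
    · simp only [y, Sum.elim_inr]
      linarith [hxa k]
  obtain ⟨y', h1, h2, h3, h4, h5⟩ := round_red q b hb (fun _ => β) _ y rfl hy (by
    rintro (s | k) hi
    · simp only [b, Sum.elim_inl]
      exact hz s (lt_of_le_of_ne (hx s) (Ne.symm hi))
    · simp only [b, Sum.elim_inr]
      intro h
      have := congrFun h k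
      simp at this) (by
    intro j
    rw [Fintype.sum_sum_type]
    simp only [b, y, Sum.elim_inl, Sum.elim_inr, Pi.single_apply]
    simp)
  have hyr : ∀ j, y' (Sum.inr j) < 1 := by
    intro j
    have h6 : y' (Sum.inr j) * b (Sum.inr j) j ≤ β := by
      rw [← h4 j]
      exact Finset.single_le_sum (f := fun i => y' i * b i j)
        (fun i _ => mul_nonneg (h1 i) (hb i j)) (mem_univ (Sum.inr j))
    simp only [b, Sum.elim_inr, Pi.single_eq_same, mul_one] at h6
    linarith
  let n : S → ℕ := fun s => ⌊y' (Sum.inl s)⌋₊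
  have hnr : r ≤ ∑ s, n s := by
    have h6 : ∑ i, y' i ≤ ∑ i ∈ univ.filter (fun i => y' i ≠ 0),
        (Sum.elim (fun s => (n s : ℝ)) (fun _ => 0) i + 1) := by
      rw [← Finset.sum_filter_ne_zero]
      refine Finset.sum_le_sum fun i _ => ?_
      rcases i with s | j
      · simp only [Sum.elim_inl]
        exact (Nat.lt_floor_add_one _).le
      · simp only [Sum.elim_inr]
        linarith [hyr j]
    rw [Finset.sum_add_distrib] at h6
    have h7 : ∑ i ∈ univ.filter (fun i => y' i ≠ 0), (Sum.elim (fun s => (n s : ℝ)) (fun _ => 0) i)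
        ≤ ∑ i : S ⊕ Fin q, (Sum.elim (fun s => (n s : ℝ)) (fun _ => 0) i) := by
      refine Finset.sum_le_sum_of_subset_of_nonneg (Finset.filter_subset _ _) ?_
      rintro (s | j) _ _
      · simp
      · simp
    rw [Fintype.sum_sum_type] at h7
    simp only [Sum.elim_inl, Sum.elim_inr, Finset.sum_const_zero, add_zero] at h7
    have h8 : ∑ i ∈ univ.filter (fun i => y' i ≠ 0), (1:ℝ) ≤ q := by
      rw [Finset.sum_const, nsmul_eq_mul, mul_one]
      exact_mod_cast h3
    have h9 : ∑ i, y i = ∑ s, x s + ∑ j, (β - ∑ s, x s * a s j) := by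
      rw [Fintype.sum_sum_type]
      simp only [y, Sum.elim_inl, Sum.elim_inr]
    have h10 : (r : ℝ) - 1 < ∑ s, (n s : ℝ) := by linarith
    have h11 : (r : ℝ) < ((∑ s, n s : ℕ) : ℝ) + 1 := by
      push_cast
      linarith
    have h12 : r < (∑ s, n s) + 1 := by exact_mod_cast h11
    omega
  have hcard : Fintype.card (Fin r) ≤ Fintype.card (Σ s, Fin (n s)) := by
    simpa using hnr
  obtain ⟨e⟩ := Function.Embedding.nonempty_of_card_le hcard
  refine ⟨fun l => (e l).1, fun l => ?_, fun j => ?_⟩
  · have h6 : 0 < n (e l).1 := lt_of_le_of_lt (Nat.zero_le _) (e l).2.2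
    have h7 : y' (Sum.inl (e l).1) ≠ 0 := by
      intro h
      simp [n, h] at h6
    have h8 := h2 _ h7
    exact lt_of_le_of_ne (hx _) (Ne.symm h8)
  · have h6 : ∑ l, a (e l).1 j ≤ ∑ p : (Σ s, Fin (n s)), a p.1 j := by
      rw [← Finset.sum_map univ e (fun p => a p.1 j)]
      exact Finset.sum_le_sum_of_subset_of_nonneg (Finset.subset_univ _)
        (fun p _ _ => ha p.1 j)
    have h7 : ∑ p : (Σ s, Fin (n s)), a p.1 j = ∑ s, (n s : ℝ) * a s j := by
      rw [Fintype.sum_sigma]
      refine Finset.sum_congr rfl fun s _ => ?_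
      simp
    have h8 : ∑ s, (n s : ℝ) * a s j ≤ ∑ s, y' (Sum.inl s) * b (Sum.inl s) j := by
      refine Finset.sum_le_sum fun s _ => ?_
      exact mul_le_mul_of_nonneg_right (Nat.floor_le (h1 _)) (ha s j)
    have h9 : ∑ s, y' (Sum.inl s) * b (Sum.inl s) j ≤ β := by
      rw [← h4 j, Fintype.sum_sum_type]
      have : 0 ≤ ∑ k, y' (Sum.inr k) * b (Sum.inr k) j :=
        Finset.sum_nonneg fun k _ => mul_nonneg (h1 _) (hb _ j)
      linarith
    linarith

end Pool.Agent.R342.SC
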