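import Mathlib

/-! # Statements for MP_d738f8_co (matching Ramsey theorem for `s`-connectors)

Three independent elementary pieces, stated as `Prop`s. -/

namespace Pool.Agent.R342.SC

open Finset

/-- some tuple satisfying `E` crosses the sets `A l` -/
def Cross {V : Type*} {r : ℕ} (E : (Fin r → V) → Prop) (A : Fin r → Finset V) : Prop :=
  ∃ v : Fin r → V, (∀ l, v l ∈ A l) ∧ E v

/-- `E` crosses all subsets with at least a proportion `δ` -/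
def Robust {V : Type*} {r : ℕ} (δ : ℝ) (E : (Fin r → V) → Prop) (B : Fin r → Finset V) : Prop :=
  ∀ A : Fin r → Finset V, (∀ l, A l ⊆ B l) → (∀ l, δ * ((B l).card : ℝ) ≤ (A l).card) → Cross E A

/-- the classes of a labelling -/
def cls {V ι : Type*} [Fintype V] [DecidableEq ι] (κ : V → ι) (P : ι) : Finset V :=
  univ.filter fun x => κ x = P

/-- **SCN-G** (greedy): a fractional matching of robust tuples of classes can be realised by a
matching up to an error `F.card + δ |V|`. -/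
def StmG : Prop :=
  ∀ (V ι : Type) [Fintype V] [DecidableEq V] [Fintype ι] [DecidableEq ι] (r : ℕ), 0 < r →
    ∀ (κ : V → ι) (E : (Fin r → V) → Prop) (δ : ℝ), 0 < δ →
    ∀ (F : Finset (Fin r → ι)), (∀ f ∈ F, Function.Injective f) →
      (∀ f ∈ F, Robust δ E fun l => cls κ (f l)) →
    ∀ w : (Fin r → ι) → ℝ, (∀ f, 0 ≤ w f) →
      (∀ P, ∑ f ∈ F with (∃ l, f l = P), w f ≤ ((cls κ P).card : ℝ)) →
    ∃ M : Finset (Fin r → V), (∀ v ∈ M, E v ∧ Function.Injective v) ∧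
      (∀ v ∈ M, ∀ v' ∈ M, v ≠ v' → ∀ l l', v l ≠ v' l') ∧
      ∑ f ∈ F, w f ≤ M.card + F.card + δ * Fintype.card V

/-- **SCN-D** (duality of linear programming for fractional matchings and covers). -/
def StmD : Prop :=
  ∀ (ι : Type) [Fintype ι] [DecidableEq ι] (r : ℕ), 0 < r →
    ∀ (F : Finset (Fin r → ι)), (∀ f ∈ F, Function.Injective f) →
    ∀ (cap : ι → ℝ), (∀ P, 0 ≤ cap P) → ∀ (τ : ℝ), 0 < τ →
      (∀ w : (Fin r → ι) → ℝ, (∀ f, 0 ≤ w f) →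
        (∀ P, ∑ f ∈ F with (∃ l, f l = P), w f ≤ cap P) → ∑ f ∈ F, w f < τ) →
    ∃ c : ι → ℝ, (∀ P, 0 ≤ c P) ∧ (∀ P, c P ≤ 1) ∧ (∀ f ∈ F, 1 ≤ ∑ l, c (f l)) ∧
      ∑ P, c P * cap P ≤ τ

/-- **SCN-R** (rounding). -/
def StmR : Prop :=
  ∀ (S : Type) [Fintype S] (q r : ℕ) (a : S → Fin q → ℝ), (∀ s j, 0 ≤ a s j) → 1 ≤ r →
    ∀ (x : S → ℝ), (∀ s, 0 ≤ x s) → ∀ (β : ℝ), 0 ≤ β → β < 1 → (∀ j, ∑ s, x s * a s j ≤ β) →
      (r : ℝ) + q - 1 < ∑ s, x s + ∑ j, (β - ∑ s, x s * a s j) →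
    ∃ u : Fin r → S, (∀ l, 0 < x (u l)) ∧ ∀ j, ∑ l, a (u l) j < 1

end Pool.Agent.R342.SC
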